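import Mathlib

namespace Pool.Agent.H.MP_808179_co.A

open Matrix Finset

theorem quad_iff {n : ℕ} {A : Matrix (Fin n) (Fin n) ℝ} (hA : A.IsHermitian) (l m : ℝ) :
    (∀ i, hA.eigenvalues i = l ∨ hA.eigenvalues i = m) ↔
      A * A = (l + m) • A - (l * m) • (1 : Matrix (Fin n) (Fin n) ℝ) := by
  obtain ⟨φ, hφ⟩ : ∃ φ, φ = Unitary.conjStarAlgAut ℝ _ hA.eigenvectorUnitary := ⟨_, rfl⟩
  obtain ⟨D, hD⟩ : ∃ D : Matrix (Fin n) (Fin n) ℝ, D = diagonal hA.eigenvalues := ⟨_, rfl⟩
  have h : A = φ D := by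
    rw [hφ, hD]
    simpa using hA.spectral_theorem
  have h2 : (A * A = (l + m) • A - (l * m) • (1 : Matrix (Fin n) (Fin n) ℝ)) ↔
      D * D = (l + m) • D - (l * m) • (1 : Matrix (Fin n) (Fin n) ℝ) := by
    rw [← (EquivLike.injective φ).eq_iff (a := D * D), map_mul, map_sub, map_smul, map_smul, map_one, ← h]
  rw [h2, hD]
  constructor
  · intro hi
    ext i j
    by_cases hij : i = j
    · subst hij
      rcases hi i with h | h <;> simp [h] <;> ring
    · simp [hij]
  · intro hq i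
    have := congrFun (congrFun hq i) i
    simp at this
    have h3 : (hA.eigenvalues i - l) * (hA.eigenvalues i - m) = 0 := by linear_combination this
    rcases mul_eq_zero.1 h3 with h | h
    · left; linarith
    · right; linarith

abbrev V := Fin 3 × Fin 3 × Fin 2

/-- Adjacency of the doubled line graph of the theta graph with three paths of length three. -/
def adj (x y : V) : Prop :=
  (x.1 ≠ y.1 ∧ x.2.1 = y.2.1 ∧ x.2.1 ≠ 1) ∨
    (x.1 = y.1 ∧ x.2.1 ≠ y.2.1 ∧ (x.2.1 = 1 ∨ y.2.1 = 1))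

instance : DecidableRel adj := fun x y => by unfold adj; infer_instance

theorem det3 (M : Matrix (Fin 3) (Fin 3) ℝ) (h : M * M = M) : M.trace ≠ 3 / 2 := by
  intro ht
  have h1 : 6 * M.det = M.trace ^ 3 - 3 * M.trace * (M * M).trace + 2 * (M * M * M).trace := by
    simp only [det_fin_three, trace_fin_three, mul_apply, Fin.sum_univ_three]
    ring
  have h2 : M.det * M.det = M.det := by rw [← det_mul, h]
  rw [h, h, ht] at h1
  nlinarith

theorem no9 (P : Matrix V V ℝ) (hs : ∀ x y, P x y = P y x) (hP : P * P = P)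
    (hz : ∀ x y, x ≠ y → (P x y ≠ 0 ↔ adj x y)) : P.trace ≠ 9 := by
  intro htr
  have z : ∀ x y, x ≠ y → ¬ adj x y → P x y = 0 := fun x y h1 h2 => by
    by_contra h3
    exact h2 ((hz x y h1).1 h3)
  have nz : ∀ x y, adj x y → P x y ≠ 0 := fun x y h => (hz x y (by
    rintro rfl
    simp [adj] at h)).2 h
  have sq : ∀ x y (S : Finset V), (∀ w, w ∉ S → (x ≠ w ∧ ¬ adj x w) ∨ (w ≠ y ∧ ¬ adj w y)) →
      ∑ w ∈ S, P x w * P w y = P x y := by
    intro x y S hS
    conv_rhs => rw [← hP, mul_apply]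
    refine Finset.sum_subset (subset_univ _) fun w _ hw => ?_
    rcases hS w hw with h | h
    · rw [z _ _ h.1 h.2, zero_mul]
    · rw [z _ _ h.1 h.2, mul_zero]
  have d1 : ∀ (i : Fin 3) (p : Fin 3) (s t : Fin 2), p ≠ 1 →
      P (i, p, s) (i, p, s) + P (i, 1, t) (i, 1, t) = 1 := by
    intro i p s t hp
    have h := sq (i, p, s) (i, 1, t) {(i, p, s), (i, 1, t)} (by
      revert i p s t; decide)
    rw [Finset.sum_pair (by simp [hp])] at h
    have h0 := nz (i, p, s) (i, 1, t) (by simp [adj, hp])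
    apply mul_right_cancel₀ h0
    linear_combination h
  have hU : ∀ (i j : Fin 3) (s t : Fin 2), j ≠ i →
      P (j, 0, s) (i, 0, 0) * P (i, 0, 0) (i, 1, t) +
        P (j, 0, s) (i, 0, 1) * P (i, 0, 1) (i, 1, t) = 0 := by
    intro i j s t hji
    have h := sq (j, 0, s) (i, 1, t) {(i, 0, 0), (i, 0, 1)} (by
      revert i j s t; decide)
    rw [Finset.sum_pair (by simp)] at h
    rw [h]
    exact z _ _ (by simp) (by simp [adj, hji])
  obtain ⟨al, hal⟩ : ∃ al : Fin 3 → Fin 2 → ℝ, al = fun i s =>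
      if s = 0 then - P (i, 0, 1) (i, 1, 0) else P (i, 0, 0) (i, 1, 0) := ⟨_, rfl⟩
  have a0 : ∀ i, al i 0 = - P (i, 0, 1) (i, 1, 0) := fun i => by simp [hal]
  have a1 : ∀ i, al i 1 = P (i, 0, 0) (i, 1, 0) := fun i => by simp [hal]
  have n0 : ∀ i, al i 0 ≠ 0 := fun i => by
    rw [a0]; exact neg_ne_zero.2 (nz _ _ (by revert i; decide))
  have n1 : ∀ i, al i 1 ≠ 0 := fun i => by
    rw [a1]; exact nz _ _ (by revert i; decide)
  let Z : Matrix V (Fin 3) ℝ := fun x j => if x.1 = j ∧ x.2.1 = 0 then al j x.2.2 else 0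
  have hPZ : ∀ x j, (P * Z) x j = P x (j, 0, 0) * al j 0 + P x (j, 0, 1) * al j 1 := by
    intro x j
    rw [mul_apply, ← Finset.sum_subset (subset_univ {(j, 0, 0), (j, 0, 1)}),
      Finset.sum_pair (by simp)]
    · simp [Z]
    · rintro ⟨i, p, s⟩ - hw
      have : ¬ (i = j ∧ p = 0) := by
        rintro ⟨rfl, rfl⟩
        revert hw s
        simp
      simp only [Z, if_neg this, mul_zero]
  let M : Matrix (Fin 3) (Fin 3) ℝ := fun i j => (P * Z) (i, 0, 0) j / al i 0
  have hZM : ∀ x j, (Z * M) x j = if x.2.1 = 0 then al x.1 x.2.2 * M x.1 j else 0 := by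
    intro x j
    rw [mul_apply, Finset.sum_eq_single x.1]
    · by_cases h : x.2.1 = 0 <;> simp [Z, h]
    · intro b _ hb
      simp [Z, hb.symm]
    · simp
  have key : P * Z = Z * M := by
    ext ⟨i, p, s⟩ j
    rw [hZM]
    by_cases hp : p = 0
    · subst hp
      simp only [if_true, M]
      have := n0 i
      by_cases hs0 : s = 0
      · subst hs0
        field_simp
      · obtain rfl : s = 1 := by omega
        rw [hPZ, hPZ]
        field_simp
        by_cases hij : i = j
        · subst hij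
          rw [z (i, 0, 1) (i, 0, 0) (by simp) (by simp [adj]),
            z (i, 0, 0) (i, 0, 1) (by simp) (by simp [adj])]
          have e1 := d1 i 0 0 0 (by simp)
          have e2 := d1 i 0 1 0 (by simp)
          linear_combination (al i 0 * al i 1) * (e2 - e1)
        · have e1 := hU i j 0 0 (Ne.symm hij)
          have e2 := hU i j 1 0 (Ne.symm hij)
          rw [hs (j, 0, 0), hs (j, 0, 0) (i, 0, 1)] at e1
          rw [hs (j, 0, 1), hs (j, 0, 1) (i, 0, 1)] at e2
          rw [a0 i, a1 i]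
          linear_combination (- al j 0) * e1 - al j 1 * e2
    · simp only [if_neg hp]
      rw [hPZ]
      by_cases h1 : p = 1 ∧ i = j
      · obtain ⟨rfl, rfl⟩ := h1
        obtain ⟨k, hk⟩ : ∃ k, k ≠ i := exists_ne i
        have e1 := hU i k 0 0 hk
        have e2 := hU i k 0 s hk
        have e3 := nz (k, 0, 0) (i, 0, 0) (by simp [adj, hk])
        rw [a0, a1, hs (i, 1, s), hs (i, 1, s)]
        apply mul_left_cancel₀ e3
        linear_combination P (i, 0, 1) (i, 1, s) * e1 - P (i, 0, 1) (i, 1, 0) * e2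
      · rw [z (i, p, s) (j, 0, 0) (by simp [hp]) (by revert i j p s; decide),
          z (i, p, s) (j, 0, 1) (by simp [hp]) (by revert i j p s; decide)]
        simp
  have hM : M * M = M := by
    have h1 : Z * (M * M) = Z * M := by
      rw [← Matrix.mul_assoc, ← key, Matrix.mul_assoc, ← key, ← Matrix.mul_assoc, hP]
    ext i j
    have h2 := congrFun (congrFun h1 (i, 0, 0)) j
    have h3 : ∀ N : Matrix (Fin 3) (Fin 3) ℝ, (Z * N) (i, 0, 0) j = al i 0 * N i j := by
      intro N
      rw [mul_apply, Finset.sum_eq_single i]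
      · simp [Z]
      · intro b _ hb
        simp [Z, hb.symm]
      · simp
    rw [h3, h3] at h2
    exact mul_left_cancel₀ (n0 i) h2
  have hd : ∀ i, M i i = P (i, 0, 0) (i, 0, 0) := by
    intro i
    have := n0 i
    simp only [M]
    rw [hPZ, z (i, 0, 0) (i, 0, 1) (by simp) (by simp [adj])]
    field_simp
    ring
  refine det3 M hM ?_
  rw [trace_fin_three, hd, hd, hd]
  simp only [Matrix.trace, diag_apply, Fintype.sum_prod_type, Fin.sum_univ_three,
    Fin.sum_univ_two] at htr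
  have f := fun i => And.intro (d1 i 0 0 0 (by simp)) (And.intro (d1 i 0 1 0 (by simp))
    (And.intro (d1 i 2 0 0 (by simp)) (And.intro (d1 i 2 1 0 (by simp)) (d1 i 2 1 1 (by simp)))))
  obtain ⟨_, _, _, _, _⟩ := f 0
  obtain ⟨_, _, _, _, _⟩ := f 1
  obtain ⟨_, _, _, _, _⟩ := f 2
  linarith

def val (x : V) : ℤ := if x.2.1 = 1 then ![267, 244, 125] x.1 else ![44, 117, 240] x.1

def B (x y : V) : ℤ :=
  if x = y then 2 * val x * val x else
  if adj x y then
    (if (x.2.1.1 + y.2.1.1 = 0 ∨ x.2.1.1 + y.2.1.1 = 3 ∨ x.2.2 = y.2.2) then val x * val y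
      else - (val x * val y))
  else 0

theorem B_symm : ∀ x y, B x y = B y x := by decide +kernel

theorem B_sq : ∀ x y, ∑ w, B x w * B w y = 146450 * B x y := by decide +kernel

theorem B_tr : ∑ x, B x x = 8 * 146450 := by decide +kernel

theorem B_nz : ∀ x y, x ≠ y → (B x y ≠ 0 ↔ adj x y) := by decide +kernel

end Pool.Agent.H.MP_808179_co.A
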